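import Pool.Agent.Helper184.KM.Expo

/-!
# The critical exponent of the Kakeya maximal function, and a zero-one law

Let `n ≥ 1` and `1 ≤ p < ∞`.  There is a number `0 ≤ β ≤ n - 1` such that

* the maximal inequality `‖f*_δ‖_p ≤ C δ^(-β' - ε) ‖f‖_p` (all `ε > 0`) holds exactly for `β' ≥ β`;
* for EVERY `f ∈ L^p` and almost every direction `e`: `f*_δ(e) = O(δ^(-γ))` for all `γ > β`;
* for TYPICAL `f ∈ L^p` (all `f` outside a meagre set) and almost every direction `e`: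
  `sup_{0<δ<1} δ^γ f*_δ(e) = ∞` for all `0 ≤ γ < β`.

Hence the estimate of the Kakeya maximal function conjecture in dimension `n` (the case `p = n`,
`β' = 0`) is equivalent to a purely qualitative statement: for every `γ > 0` there is a nonmeagre
set of `f ∈ L^n` such that `f*_δ(e) = O(δ^(-γ))` for a set of directions `e` of positive measure.
-/

open MeasureTheory Set Metric Filter
open scoped ENNReal NNReal Topology

namespace Pool.Agent.Results.MP_5168f5_an.CriticalExponent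

/-- The space `ℝ^n`. -/
abbrev Rn (n : ℕ) : Type := EuclideanSpace ℝ (Fin n)

/-- The closed cylinder of length `1` and radius `δ` with centre `a` and axis direction `e`. -/
def tube {n : ℕ} (δ : ℝ) (a e : Rn n) : Set (Rn n) :=
  {y | |inner ℝ (y - a) e| ≤ 1 / 2 ∧ ‖(y - a) - (inner ℝ (y - a) e : ℝ) • e‖ ≤ δ}

/-- The Kakeya maximal function `f*_δ(e)`. -/
noncomputable def maxFn {n : ℕ} (δ : ℝ) (f : Rn n → ℝ) (e : Rn n) : ℝ≥0∞ :=
  ⨆ a : Rn n, (∫⁻ y in tube δ a e, ‖f y‖ₑ) / volume (tube δ a e)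

/-- The surface measure on the unit sphere. -/
noncomputable def surf (n : ℕ) : Measure (sphere (0 : Rn n) 1) :=
  (volume : Measure (Rn n)).toSphere

/-- `f` belongs to `L^p(ℝ^n)`. -/
def InLp {n : ℕ} (p : ℝ) (f : Rn n → ℝ) : Prop := MemLp f (ENNReal.ofReal p) volume

/-- The maximal inequality with exponent `β`, up to `ε`:
`‖f*_δ‖_{L^p(S^{n-1})} ≤ C_ε δ^(-(β+ε)) ‖f‖_{L^p(ℝ^n)}` for all `ε > 0`, `f ∈ L^p` and
`0 < δ < 1`. -/
def MaxBound (n : ℕ) (p β : ℝ) : Prop :=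
  ∀ ε : ℝ, 0 < ε → ∃ C : ℝ≥0, ∀ f : Rn n → ℝ, InLp p f → ∀ δ : ℝ, 0 < δ → δ < 1 →
    (∫⁻ e, (maxFn δ f e) ^ p ∂(surf n)) ^ (1 / p) ≤
      C * ENNReal.ofReal (δ ^ (-(β + ε))) * eLpNorm f (ENNReal.ofReal p) volume

/-- `sup_{0<δ<1} δ^γ f*_δ(e)`. -/
noncomputable def growth {n : ℕ} (γ : ℝ) (f : Rn n → ℝ) (e : Rn n) : ℝ≥0∞ :=
  ⨆ δ ∈ Ioo (0 : ℝ) 1, ENNReal.ofReal (δ ^ γ) * maxFn δ f e

/-- For almost every direction `e`: `f*_δ(e) = O(δ^(-γ))` for all `γ > β`. -/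
def FiniteAbove {n : ℕ} (β : ℝ) (f : Rn n → ℝ) : Prop :=
  ∀ᵐ e ∂(surf n), ∀ γ : ℝ, β < γ → growth γ f e.1 < ∞

/-- For almost every direction `e`: `sup_δ δ^γ f*_δ(e) = ∞` for all `0 ≤ γ < β`. -/
def InfiniteBelow {n : ℕ} (β : ℝ) (f : Rn n → ℝ) : Prop :=
  ∀ᵐ e ∂(surf n), ∀ γ : ℝ, 0 ≤ γ → γ < β → growth γ f e.1 = ∞

/-- The directions `e` with `sup_δ δ^γ f*_δ(e) < ∞` have positive measure (are not a null set). -/
def PositiveSet {n : ℕ} (γ : ℝ) (f : Rn n → ℝ) : Prop :=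
  surf n {e | growth γ f e.1 < ∞} ≠ 0

/-- The functions in `L^q(μ)` with the property `P` form a meagre set. -/
def Meagre {α : Type} [MeasurableSpace α] (μ : Measure α) (q : ℝ≥0∞) [Fact (1 ≤ q)]
    (P : (α → ℝ) → Prop) : Prop :=
  IsMeagre {f : Lp ℝ q μ | P f}

/-- The functions in `L^p(ℝ^n)` with the property `P` form a meagre set. -/
def MeagreLp (n : ℕ) (p : ℝ) [Fact (1 ≤ ENNReal.ofReal p)] (P : (Rn n → ℝ) → Prop) : Prop :=
  Meagre (volume : Measure (Rn n)) (ENNReal.ofReal p) P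

/-- **Zero-one law for the Kakeya maximal function** (`Fact (1 ≤ ENNReal.ofReal p)` says that
`1 ≤ p`). -/
theorem result (n : ℕ) (hn : 1 ≤ n) (p : ℝ) [Fact (1 ≤ ENNReal.ofReal p)] :
    (∃ β : ℝ, 0 ≤ β ∧ β ≤ n - 1 ∧ (∀ β' : ℝ, 0 ≤ β' → (MaxBound n p β' ↔ β ≤ β')) ∧
      (∀ f : Rn n → ℝ, InLp p f → FiniteAbove β f) ∧
      MeagreLp n p (fun f => ¬ InfiniteBelow β f)) ∧
    (∀ β' : ℝ, 0 ≤ β' →
      (MaxBound n p β' ↔ ∀ γ : ℝ, β' < γ → ¬ MeagreLp n p (PositiveSet γ))) := by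
  obtain ⟨d, rfl⟩ : ∃ d, n = d + 1 := ⟨n - 1, by omega⟩
  refine ⟨?_, fun β' h0 => ?_⟩
  · obtain ⟨β, h0, h1, h2, h3, h4⟩ := Pool.Agent.Helper184.KM.critical d p
    refine ⟨β, h0, ?_, h2, h3, ?_⟩
    · push_cast
      linarith
    · unfold MeagreLp Meagre IsMeagre
      have e1 : {f : Lp ℝ (ENNReal.ofReal p) (volume : Measure (Rn (d + 1))) |
          ¬ InfiniteBelow β (f : Rn (d + 1) → ℝ)}ᶜ =
          {f : Lp ℝ (ENNReal.ofReal p) (volume : Measure (Rn (d + 1))) |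
            InfiniteBelow β (f : Rn (d + 1) → ℝ)} := by
        ext f
        exact not_not
      rw [e1]
      exact h4
  · refine (Pool.Agent.Helper184.KM.freq (d := d) (p := p) h0).trans ?_
    refine forall_congr' fun γ => forall_congr' fun _ => ?_
    have e1 : ∀ f : Rn (d + 1) → ℝ, (∃ᶠ (e : sphere (0 : Rn (d + 1)) 1) in ae (surf (d + 1)),
        growth γ f e < ∞) ↔ PositiveSet γ f := fun f => frequently_ae_iff
    have e2 : ∀ f : Rn (d + 1) → ℝ, PositiveSet γ f ↔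
      (∃ᶠ (e : sphere (0 : EuclideanSpace ℝ (Fin (d + 1))) 1) in
        ae (Pool.Agent.Helper184.KM.sig (d + 1)),
          Pool.Agent.Helper184.KM.gr γ f e < ∞) := fun f => (e1 f).symm
    unfold MeagreLp Meagre IsMeagre
    simp only [e2]
    rfl

end Pool.Agent.Results.MP_5168f5_an.CriticalExponent
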