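import Pool.Agent.H668.Fol.NearCrit
import Pool.Agent.H668.Fol.Hess

set_option autoImplicit false

/-!
# MP_5168f5: the Kakeya maximal function on functions constant on the level sets of a Morse function

Let `U ⊆ ℝ^n` be open and let `F : U → ℝ` be a smooth function all of whose critical points (if
there are any) are nondegenerate.  Its level sets are the leaves of a (singular) foliation of `U` by
hypersurfaces, and the functions that are constant on the leaves are the functions `g ∘ F`, where
`g` is a function of one real variable.  For `F(x) = |x|^2` these are the radial functions.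

We prove that for these functions (restricted to a compact set `K ⊆ U`) the Kakeya maximal
conjecture holds at the critical exponent `n`, for ARBITRARY measurable `g`: for every `ε > 0`
there is `C` with

  `∫ ((1_K · g ∘ F)^*_δ)^n ≤ C δ^(-ε) ∫_U |g ∘ F|^n`   for all `0 < δ < 1` and all `g`.

If `F` is only of class `C^k`, `k ≥ 2`, the same holds with `δ^(-((n-1)/k + ε))` instead of
`δ^(-ε)`.

Proof: on a small ball without critical points `F` is within `δ` of a Taylor polynomial `P`.  Along
a line `P` is a polynomial of one variable; between two of the points at which the absolute value of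
its derivative is a power of `2` it maps Lebesgue measure to nearly a multiple of Lebesgue measure on
an interval.  Hence the integral of `g ∘ P` along a segment is controlled, up to logarithms, by the
products of an average of `|g|` over an interval `J` and the length of the part of the segment that
lies in the semialgebraic set `{P ∈ J}`; for these sets the maximal estimate is known
(`Pool.Agent.W770.SA.weak`), and the averages are controlled by Hölder's inequality.  Near a critical
point the estimate is applied, with uniform constants, to the rescaled functions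
`ρ^(-2) F(z + ρ y)` on the annulus `1/2 ≤ |y| ≤ 1` and the rescaled tubes; the estimate at the
exponent `n` is invariant under this rescaling, and only `log (1/δ)` annuli are needed.
-/

open MeasureTheory Set Filter Topology ENNReal NNReal Metric

namespace Pool.Agent.Results.MP_5168f5_an.FoliatedFunctions

/-- The closed tube of length `1` and radius `δ` with centre `b` and axis direction `e`. -/
def tube {n : ℕ} (δ : ℝ) (e b : EuclideanSpace ℝ (Fin n)) : Set (EuclideanSpace ℝ (Fin n)) :=
  {y | |inner ℝ (y - b) e| ≤ 1 / 2 ∧ ‖(y - b) - (inner ℝ (y - b) e : ℝ) • e‖ ≤ δ}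

/-- The Kakeya maximal function. -/
noncomputable def kakeyaMax {n : ℕ} (δ : ℝ) (f : EuclideanSpace ℝ (Fin n) → ℝ)
    (e : EuclideanSpace ℝ (Fin n)) : ℝ≥0∞ :=
  ⨆ a : EuclideanSpace ℝ (Fin n), (volume (tube δ e a))⁻¹ * ∫⁻ y in tube δ e a, ‖f y‖ₑ

/-- The surface measure of the unit sphere. -/
noncomputable def surf (n : ℕ) : Measure (sphere (0 : EuclideanSpace ℝ (Fin n)) 1) :=
  (volume : Measure (EuclideanSpace ℝ (Fin n))).toSphere

/-- All critical points of `F` in `U` are nondegenerate: at a point where the derivative of `F`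
vanishes the second derivative `D²F(x)(v, ·)` vanishes for `v = 0` only. -/
def MorseOn {n : ℕ} (F : EuclideanSpace ℝ (Fin n) → ℝ) (U : Set (EuclideanSpace ℝ (Fin n))) :
    Prop :=
  ∀ x ∈ U, fderiv ℝ F x = 0 →
    ∀ v : EuclideanSpace ℝ (Fin n), fderiv ℝ (fderiv ℝ F) x v = 0 → v = 0

/-- **The Kakeya maximal estimate for functions constant on the level sets of a Morse function.**
Let `n ≥ 2`, `k ≥ 2`, let `U ⊆ ℝ^n` be open, `F : U → ℝ` of class `C^k` with nondegenerate critical
points only (if any), `K ⊆ U` compact and `ε > 0`.  There is `C` such that for all `0 < δ < 1` and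
all measurable `g : ℝ → ℝ`

  `∫ ((1_K g ∘ F)^*_δ)^n ≤ C δ^(-((n-1)/k + ε)) ∫_U |g ∘ F|^n`.

If `F` is smooth one can take `k` as large as one likes, so that the loss is `δ^(-ε)` for every
`ε > 0`, as the maximal function conjecture says for all functions. -/
theorem result (n : ℕ) (hn : 2 ≤ n) (U : Set (EuclideanSpace ℝ (Fin n))) (hU : IsOpen U)
    (F : EuclideanSpace ℝ (Fin n) → ℝ) (k : ℕ) (hk : 2 ≤ k) (hF : ContDiffOn ℝ k F U)
    (hmorse : MorseOn F U) (K : Set (EuclideanSpace ℝ (Fin n)))
    (hK : IsCompact K) (hKU : K ⊆ U) (ε : ℝ) (hε : 0 < ε) :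
    ∃ C : ℝ, 0 < C ∧ ∀ (δ : ℝ) (g : ℝ → ℝ), 0 < δ → δ < 1 → Measurable g →
      ∫⁻ e, kakeyaMax δ (K.indicator fun x => g (F x)) (e : EuclideanSpace ℝ (Fin n)) ^ n
        ∂(surf n) ≤
      ENNReal.ofReal (C * δ ^ (-(((n:ℝ) - 1) / k + ε))) * ∫⁻ x in U, ‖g (F x)‖ₑ ^ n := by
  obtain ⟨d, rfl⟩ : ∃ d, n = d + 1 := ⟨n - 1, by omega⟩
  obtain ⟨l, rfl⟩ : ∃ l, k = l + 1 := ⟨k - 1, by omega⟩
  have hnd : ∀ x ∈ U, fderiv ℝ F x = 0 → ∃ c : ℝ, 0 < c ∧
      ∀ᶠ y in 𝓝 x, c * ‖y - x‖ ≤ ‖fderiv ℝ F y‖ := by
    intro x hx hcrit
    have hFx : ContDiffAt ℝ ((l + 1 : ℕ) : WithTop ℕ∞) F x := hF.contDiffAt (hU.mem_nhds hx)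
    have h1 : ContDiffAt ℝ 1 (fderiv ℝ F) x := hFx.fderiv_right (by norm_cast)
    exact Pool.Agent.H668.Fol.nondeg (h1.differentiableAt (by simp)) hcrit
      (hmorse x hx hcrit)
  obtain ⟨C, hC, h⟩ := Pool.Agent.H668.Fol.global_morse (d := d) (k := l) hU (by omega)
    (by exact_mod_cast hF) hnd hK hKU ε hε
  refine ⟨C, hC, fun δ g hδ hδ1 hg => ?_⟩
  have := h δ g hδ hδ1 hg
  push_cast
  rw [add_sub_cancel_right]
  exact this

end Pool.Agent.Results.MP_5168f5_an.FoliatedFunctions
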