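import Pool.Agent.H668.Lat.Max2

/-!
# MP_5168f5_an: the Kakeya maximal function near the directions of a lattice

Write `n = d + 1` and represent directions of `ℝ^n` making an angle of at most about `45°` with the
first axis as the directions of the vectors `(1, v)`, `v ∈ [-1, 1]^d`.  Let `Λ = w₀ + M ℤ^d` be a
translate of a lattice of `ℝ^d`, of mesh at least `ρ` in the sense that `‖M x‖ ≥ ρ ‖x‖` for all
`x ∈ ℝ^d` (maximum norm).

1. Let `p` be a prime with `3 p δ ≤ ρ` and let `A ⊆ ℤ^d` be a finite set with at most `m` elements in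
   each residue class modulo `p`.  Then the Kakeya maximal inequality on `L^n` holds, with constant
   `C m` and no loss in `δ`, on the set of all directions within `δ` of those of `±(1, w₀ + M k)`,
   `k ∈ A`.
2. If `ρ = √δ`, it holds with a constant depending only on `n` on the set of all directions within
   `δ` of those of the whole net `Λ ∩ [-1, 1]^d` (and of their opposites).

In the second part the set of directions has measure about `δ ^ ((n - 1) / 2)` for a lattice of mesh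
comparable to `√δ`; in the first part the directions may be much closer together than `√δ`.
-/

set_option autoImplicit false

open MeasureTheory
open scoped ENNReal

namespace Pool.Agent.Results.MP_5168f5_an.LatticeDirections

/-- The closed cylinder of length `1` and radius `δ` with centre `a` and axis direction `e`. -/
def tube {n : ℕ} (δ : ℝ) (a e : EuclideanSpace ℝ (Fin n)) : Set (EuclideanSpace ℝ (Fin n)) :=
  {y | |inner ℝ (y - a) e| ≤ 1 / 2 ∧ ‖(y - a) - (inner ℝ (y - a) e) • e‖ ≤ δ}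

/-- The Kakeya maximal function. -/
noncomputable def kakeyaMax {n : ℕ} (δ : ℝ) (f : EuclideanSpace ℝ (Fin n) → ℝ)
    (e : EuclideanSpace ℝ (Fin n)) : ℝ≥0∞ :=
  ⨆ a : EuclideanSpace ℝ (Fin n), (volume (tube δ a e))⁻¹ * ∫⁻ y in tube δ a e, ‖f y‖ₑ

/-- Surface measure of the unit sphere. -/
noncomputable abbrev surf (n : ℕ) : Measure (Metric.sphere (0 : EuclideanSpace ℝ (Fin n)) 1) :=
  (volume : Measure (EuclideanSpace ℝ (Fin n))).toSphere

/-- The vector `(1, v)` of `ℝ^(d+1)`. -/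
noncomputable def vec {d : ℕ} (v : Fin d → ℝ) : EuclideanSpace ℝ (Fin (d + 1)) :=
  WithLp.toLp 2 (Fin.cons 1 v)

/-- The direction of `(1, v)`, a unit vector. -/
noncomputable def direction {d : ℕ} (v : Fin d → ℝ) : EuclideanSpace ℝ (Fin (d + 1)) :=
  ‖vec v‖⁻¹ • vec v

/-- The point number `k` of the translated lattice `w₀ + M ℤ^d`. -/
def point {d : ℕ} (M : (Fin d → ℝ) →ₗ[ℝ] (Fin d → ℝ)) (w₀ : Fin d → ℝ) (k : Fin d → ℤ) :
    Fin d → ℝ := w₀ + M fun l => (k l : ℝ)

/-- The mesh of the lattice `M ℤ^d` is at least `ρ`, in the form `ρ ‖x‖ ≤ ‖M x‖` for all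
`x ∈ ℝ^d` (maximum norm). -/
def MeshAtLeast {d : ℕ} (ρ : ℝ) (M : (Fin d → ℝ) →ₗ[ℝ] (Fin d → ℝ)) : Prop :=
  ∀ x : Fin d → ℝ, ρ * ‖x‖ ≤ ‖M x‖

/-- The unit vectors at distance at most `δ` from the direction of `(1, v)` or from its opposite,
where `v` runs over the points of `w₀ + M ℤ^d` with number in `A` and all coordinates in
`[-1, 1]`. -/
def Near {d : ℕ} (δ : ℝ) (M : (Fin d → ℝ) →ₗ[ℝ] (Fin d → ℝ)) (w₀ : Fin d → ℝ)
    (A : Set (Fin d → ℤ)) : Set (Metric.sphere (0 : EuclideanSpace ℝ (Fin (d + 1))) 1) :=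
  {e | ∃ k ∈ A, ‖point M w₀ k‖ ≤ 1 ∧
    (‖(e : EuclideanSpace ℝ (Fin (d + 1))) - direction (point M w₀ k)‖ ≤ δ ∨
      ‖(e : EuclideanSpace ℝ (Fin (d + 1))) + direction (point M w₀ k)‖ ≤ δ)}

/-- `A ⊆ ℤ^d` has at most `m` elements in each residue class modulo `p`. -/
def FewInClasses {d : ℕ} (p m : ℕ) (A : Finset (Fin d → ℤ)) : Prop :=
  ∀ z : Fin d → ℤ, (A.filter fun k => ∀ i, (p : ℤ) ∣ k i - z i).card ≤ m

/-- **The Kakeya maximal function near the directions of a lattice.**  Here `n = d + 1`. -/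
theorem result (d : ℕ) (hd : 1 ≤ d) :
    ∃ C : ℝ, 0 < C ∧ ∀ (δ : ℝ), 0 < δ → δ < 1 →
    ∀ (M : (Fin d → ℝ) →ₗ[ℝ] (Fin d → ℝ)) (w₀ : Fin d → ℝ)
      (f : EuclideanSpace ℝ (Fin (d + 1)) → ℝ), AEMeasurable f volume →
      (∀ (p m : ℕ) (A : Finset (Fin d → ℤ)), p.Prime → MeshAtLeast (3 * p * δ) M →
        FewInClasses p m A →
        ∫⁻ e in Near δ M w₀ A, kakeyaMax δ f e ^ (d + 1) ∂(surf (d + 1)) ≤
          ENNReal.ofReal (C * m) * ∫⁻ y, ‖f y‖ₑ ^ (d + 1)) ∧
      (MeshAtLeast (√δ) M →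
        ∫⁻ e in Near δ M w₀ Set.univ, kakeyaMax δ f e ^ (d + 1) ∂(surf (d + 1)) ≤
          ENNReal.ofReal C * ∫⁻ y, ‖f y‖ₑ ^ (d + 1)) := by
  classical
  obtain ⟨C₁, hC₁, h₁⟩ := Pool.Agent.H668.Lat.max_core d hd
  obtain ⟨C₂, hC₂, h₂⟩ := Pool.Agent.H668.Lat.max_net d hd
  refine ⟨C₁ + C₂, by positivity, ?_⟩
  intro δ hδ hδ1 M w₀ f hf
  constructor
  · intro p m A hp hM hA
    have : Fact p.Prime := ⟨hp⟩
    set A' : Finset (Fin d → ℤ) := A.filter fun k => ‖w₀ + M fun i => (k i : ℝ)‖ ≤ 1 with hA'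
    have hcl : ∀ z : Fin d → ZMod p,
        (A'.filter fun k => Pool.Agent.H668.Lat.red p k = z).card ≤ m := by
      intro z
      refine le_trans (Finset.card_le_card ?_) (hA fun i => ((z i).cast : ℤ))
      intro k hk
      rw [Finset.mem_filter] at hk ⊢
      refine ⟨(Finset.mem_filter.1 hk.1).1, fun i => ?_⟩
      have h3 : (k i : ZMod p) = z i := congrFun hk.2 i
      have h4 : (((z i).cast : ℤ) : ZMod p) = (k i : ZMod p) := by
        rw [h3]
        exact ZMod.intCast_zmod_cast (z i)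
      exact (ZMod.intCast_eq_intCast_iff_dvd_sub _ _ _).1 h4
    have key := h₁ p δ hδ hδ1 M (by
        intro x
        have := hM x
        refine le_trans (le_of_eq ?_) this
        ring) w₀ A' m hcl (fun k hk => (Finset.mem_filter.1 hk).2) (fun y => ‖f y‖ₑ) hf.enorm
    refine le_trans (lintegral_mono_set ?_) (key.trans ?_)
    · rintro e ⟨k, hk, hk1, he⟩
      exact ⟨k, Finset.mem_filter.2 ⟨hk, hk1⟩, he⟩
    · refine mul_le_mul_left (ENNReal.ofReal_le_ofReal ?_) _
      have : (0 : ℝ) ≤ m := Nat.cast_nonneg m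
      nlinarith
  · intro hM
    have key := h₂ δ hδ hδ1 M hM w₀ (fun y => ‖f y‖ₑ) hf.enorm
    refine le_trans (lintegral_mono_set ?_) (key.trans ?_)
    · rintro e ⟨k, -, hk1, he⟩
      exact ⟨k, hk1, he⟩
    · refine mul_le_mul_left (ENNReal.ofReal_le_ofReal ?_) _
      linarith

end Pool.Agent.Results.MP_5168f5_an.LatticeDirections
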