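import Pool.Agent.H668.Per.Lower

/-!
# MP_5168f5: the Kakeya maximal function of functions with an `η`-dense group of periods

If the periods of `F` form an `η`-dense set, then for every `p ≥ 2` the Kakeya maximal function of
`F` (all tubes `1 × δ` are allowed) is bounded in `L^p` of the sphere by the `L^p` norm of `F` on the
unit ball, with the constant `C (1 + log (1 / δ)) ^ 2 (1 + η ^ n / δ ^ (n - 2))` for the `p`-th
powers.  For `p = 2` this constant is sharp for all `δ ≤ η` up to the logarithms.  There is no power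
loss when `η ^ n ≤ δ ^ (n - 2)`.
-/

set_option autoImplicit false

open MeasureTheory Set Filter Topology ENNReal NNReal Metric

namespace Pool.Agent.Results.MP_5168f5_an.PeriodicFunctions

/-- Euclidean space. -/
abbrev E (n : ℕ) : Type := EuclideanSpace ℝ (Fin n)

/-- The closed tube of length `1` and radius `δ` with centre `a` and axis direction `e`. -/
def tube {n : ℕ} (δ : ℝ) (a e : E n) : Set (E n) :=
  {y | |inner ℝ (y - a) e| ≤ 1 / 2 ∧ ‖(y - a) - (inner ℝ (y - a) e : ℝ) • e‖ ≤ δ}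

/-- The Kakeya maximal function. -/
noncomputable def kakeyaMax {n : ℕ} (δ : ℝ) (f : E n → ℝ) (e : E n) : ℝ≥0∞ :=
  ⨆ a : E n, (volume (tube δ a e))⁻¹ * ∫⁻ y in tube δ a e, ‖f y‖ₑ

/-- The `p`-th power of the norm of the Kakeya maximal function in `L^p` of the sphere. -/
noncomputable def maxPow {n : ℕ} (δ p : ℝ) (f : E n → ℝ) : ℝ≥0∞ :=
  ∫⁻ e : sphere (0 : E n) 1, kakeyaMax δ f e ^ p ∂(volume : Measure (E n)).toSphere

/-- The `p`-th power of the norm of `f` in `L^p(ℝ^n)`. -/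
noncomputable def lpPow {n : ℕ} (p : ℝ) (f : E n → ℝ) : ℝ≥0∞ := ∫⁻ y, ‖f y‖ₑ ^ p

/-- The restriction of `F` to the open unit ball, extended by zero. -/
noncomputable def cut {n : ℕ} (F : E n → ℝ) : E n → ℝ := (ball (0 : E n) 1).indicator F

/-- Every point of the space is within `η` of a period of `F`. -/
def DensePeriods {n : ℕ} (η : ℝ) (F : E n → ℝ) : Prop :=
  ∀ x : E n, ∃ v : E n, ‖x - v‖ ≤ η ∧ ∀ y, F (y + v) = F y

theorem lpPow_cut {n : ℕ} {p : ℝ} (hp : 0 < p) (F : E n → ℝ) :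
    lpPow p (cut F) = ∫⁻ y in ball (0 : E n) 1, ‖F y‖ₑ ^ p := by
  unfold lpPow cut
  rw [← lintegral_indicator measurableSet_ball]
  congr 1
  funext y
  by_cases hy : y ∈ ball (0 : E n) 1
  · rw [indicator_of_mem hy, indicator_of_mem hy]
  · rw [indicator_of_notMem hy, indicator_of_notMem hy, enorm_zero, ENNReal.zero_rpow_of_pos hp]

theorem kakeyaMax_cut {n : ℕ} (δ : ℝ) (F : E n → ℝ) (e : E n) :
    kakeyaMax δ (cut F) e ≤ kakeyaMax δ F e := by
  unfold kakeyaMax cut
  refine iSup_mono fun a => mul_le_mul' le_rfl (lintegral_mono fun y => ?_)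
  by_cases hy : y ∈ ball (0 : E n) 1
  · rw [indicator_of_mem hy]
  · rw [indicator_of_notMem hy, enorm_zero]
    exact zero_le

/-- **The Kakeya maximal estimate for functions with an `η`-dense group of periods**, for all
exponents `p ≥ 2`, with a factor which is sharp at `p = 2` up to the logarithms. -/
theorem result (n : ℕ) (hn : 3 ≤ n) : ∃ C c : ℝ, 0 < C ∧ 0 < c ∧
    (∀ (δ η p : ℝ) (F : E n → ℝ), 0 < δ → δ ≤ c → η ≤ c → 2 ≤ p → Measurable F →
      DensePeriods η F →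
      maxPow δ p F ≤
        .ofReal (C * (1 + Real.log (1 / δ)) ^ 2 * (1 + η ^ n / δ ^ (n - 2))) * lpPow p (cut F) ∧
      maxPow δ p (cut F) ≤
        .ofReal (C * (1 + Real.log (1 / δ)) ^ 2 * (1 + η ^ n / δ ^ (n - 2))) * lpPow p (cut F)) ∧
    (∀ δ η : ℝ, 0 < δ → δ ≤ η → η ≤ c → ∃ F : E n → ℝ, Measurable F ∧ DensePeriods η F ∧
      0 < lpPow 2 (cut F) ∧ lpPow 2 (cut F) < ∞ ∧
      .ofReal (c * (1 + η ^ n / δ ^ (n - 2))) * lpPow 2 (cut F) ≤ maxPow δ 2 (cut F)) := by
  obtain ⟨d, rfl⟩ : ∃ d, n = d + 3 := ⟨n - 3, by omega⟩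
  have hd : d + 3 - 2 = d + 1 := by omega
  rw [hd]
  obtain ⟨C, c₁, hC, hc₁, hup⟩ := Pool.Agent.H668.Per.upper d
  obtain ⟨c₂, hc₂, hlow⟩ := Pool.Agent.H668.Per.lower d
  refine ⟨C, min c₁ (min c₂ (1 / 4)), hC, by positivity, ?_, ?_⟩
  · intro δ η p F hδ hδc hηc hp hF hper
    have h1 := hup δ η p F hδ (hδc.trans (min_le_left _ _)) (hηc.trans (min_le_left _ _)) hp hF hper
    have hp0 : 0 < p := by linarith
    rw [lpPow_cut hp0]
    refine ⟨h1, le_trans (lintegral_mono fun e => ?_) h1⟩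
    exact ENNReal.rpow_le_rpow (kakeyaMax_cut δ F e) hp0.le
  · intro δ η hδ hδη hηc
    obtain ⟨F, hF, hper, h1, h2, h3⟩ := hlow δ η hδ hδη
      (hηc.trans ((min_le_right _ _).trans (min_le_right _ _)))
    have h0 : lpPow 2 (cut F) = ∫⁻ y in ball (0 : E (d + 3)) 1, ‖F y‖ₑ ^ 2 := by
      rw [lpPow_cut two_pos]
      simp only [ENNReal.rpow_two]
    have h5 : maxPow δ 2 (cut F) = ∫⁻ e : sphere (0 : E (d + 3)) 1,
        Pool.Agent.H668.Per.kmax δ ((ball (0 : E (d + 3)) 1).indicator F) e ^ 2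
          ∂(volume : Measure (E (d + 3))).toSphere := by
      unfold maxPow
      simp only [ENNReal.rpow_two]
      rfl
    refine ⟨F, hF, hper, ?_⟩
    rw [h0, h5]
    refine ⟨h1, h2, le_trans (mul_le_mul' (ENNReal.ofReal_le_ofReal ?_) le_rfl) h3⟩
    have h4 : min c₁ (min c₂ (1 / 4)) ≤ c₂ := (min_le_right _ _).trans (min_le_left _ _)
    have hη : 0 < η := by linarith
    gcongr

end Pool.Agent.Results.MP_5168f5_an.PeriodicFunctions
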